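import Mathlib

set_option autoImplicit false

namespace Pool.Agent.Results.MP_8835a9_co.Long

open Matrix

variable {R : Type} [CommRing R]

/-- `M (a₁, …, aₙ) = E aₙ ⋯ E a₁` with `E a = !![a, -1; 1, 0]`. -/
def M (l : List R) : Matrix (Fin 2) (Fin 2) R :=
  (l.reverse.map fun a => !![a, -1; 1, 0]).prod

def IsSol (l : List R) : Prop := M l = 1 ∨ M l = -1

/-- `l` is equivalent to `(a₁, x, aₙ) ⊕ (b₁, y, bₘ)` for two solutions of size at least `3`. -/
def Reducible (l : List R) : Prop :=
  ∃ (a₁ aₙ b₁ bₘ : R) (x y : List R), x ≠ [] ∧ y ≠ [] ∧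
    IsSol (a₁ :: x ++ [aₙ]) ∧ IsSol (b₁ :: y ++ [bₘ]) ∧
    (l ~r (a₁ + bₘ) :: x ++ (aₙ + b₁) :: y ∨ l.reverse ~r (a₁ + bₘ) :: x ++ (aₙ + b₁) :: y)

lemma M_cons (c : R) (l : List R) : M (c :: l) = M l * !![c, -1; 1, 0] := by simp [M]

lemma M_snoc (c : R) (l : List R) : M (l ++ [c]) = !![c, -1; 1, 0] * M l := by simp [M]

lemma inner {b c : R} {y : List R} (h : IsSol (b :: y ++ [c])) : M y 0 0 = 1 ∨ M y 0 0 = -1 := by
  rw [IsSol, M_snoc, M_cons] at h
  rcases h with h | h
  · have := congrFun (congrFun h 1) 1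
    simp [Matrix.mul_apply, Fin.sum_univ_two] at this
    exact Or.inr (by linear_combination -this)
  · have := congrFun (congrFun h 1) 1
    simp [Matrix.mul_apply, Fin.sum_univ_two] at this
    exact Or.inl this

def a (u : R) (i : ℕ) : R := if i % 3 = 1 then u else 2

def v (u : R) (i : ℕ) : R × R :=
  if i % 3 = 0 then ((-2) ^ (i / 3), 0)
  else if i % 3 = 1 then (2 * (-2) ^ (i / 3), (-u) ^ (i / 3)) else (0, u * (-u) ^ (i / 3))

def V (u : R) (i : ℕ) : Matrix (Fin 2) (Fin 2) R :=
  !![(v u (i + 1)).1, (v u (i + 1)).2; (v u i).1, (v u i).2]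

variable {u : R}

lemma v0 (p : ℕ) : v u (3 * p) = ((-2) ^ p, 0) := by simp [v]
lemma v1 (p : ℕ) : v u (3 * p + 1) = (2 * (-2) ^ p, (-u) ^ p) := by
  simp [v, show (3 * p + 1) / 3 = p by omega]
lemma v2 (p : ℕ) : v u (3 * p + 2) = (0, u * (-u) ^ p) := by
  simp [v, show (3 * p + 2) / 3 = p by omega]

lemma three (i : ℕ) : ∃ p, i = 3 * p ∨ i = 3 * p + 1 ∨ i = 3 * p + 2 := ⟨i / 3, by omega⟩

lemma step (hu : 2 * u = 1) (i : ℕ) : !![a u (i + 1), -1; 1, 0] * V u i = V u (i + 1) := by
  have key : a u (i + 1) • v u (i + 1) - v u i = v u (i + 2) := by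
    obtain ⟨p, rfl | rfl | rfl⟩ := three i
    · rw [v0, v1, v2]
      ext <;> simp [a]
      linear_combination (-2) ^ p * hu
    · rw [v1, v2, show 3 * p + 1 + 2 = 3 * (p + 1) by ring, v0]
      ext <;> simp [a, show (3 * p + 1 + 1) % 3 = 2 by omega, pow_succ]
      · ring
      · linear_combination (-u) ^ p * hu
    · rw [v2, show 3 * p + 2 + 1 = 3 * (p + 1) by ring,
        show 3 * p + 2 + 2 = 3 * (p + 1) + 1 by ring, v0, v1]
      ext <;> simp [a, pow_succ]
      ring
  rw [V, V, ← key]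
  ext i j
  fin_cases i <;> fin_cases j <;> simp [Matrix.mul_apply, Fin.sum_univ_two, sub_eq_add_neg]

lemma walk (hu : 2 * u = 1) (y : List R) (i : ℕ)
    (h : ∀ j (hj : j < y.length), y[j] = a u (i + 1 + j)) : M y * V u i = V u (i + y.length) := by
  induction y generalizing i with
  | nil => simp [M]
  | cons c y ih =>
    have hc : c = a u (i + 1) := h 0 (by simp)
    rw [M_cons, Matrix.mul_assoc, hc, step hu, ih (i + 1) fun j hj => by
      rw [show i + 1 + 1 + j = i + 1 + (j + 1) by ring]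
      exact h (j + 1) (by simpa using hj)]
    simp [add_assoc, add_comm 1]

def D (u : R) (i j : ℕ) : R := (v u i).1 * (v u j).2 - (v u i).2 * (v u j).1

lemma inv_pow' (hu : 2 * u = 1) (p : ℕ) : (-2) ^ p * (-u) ^ p = 1 := by
  rw [← mul_pow, neg_mul_neg, hu, one_pow]

lemma D_succ (hu : 2 * u = 1) (i : ℕ) : D u i (i + 1) = 1 := by
  unfold D
  obtain ⟨p, rfl | rfl | rfl⟩ := three i
  · rw [v0, v1]
    simpa using inv_pow' hu p
  · rw [v1, v2]
    linear_combination (2 * u) * inv_pow' hu p + hu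
  · rw [v2, show 3 * p + 2 + 1 = 3 * (p + 1) by ring, v0]
    simp only [pow_succ]
    linear_combination (2 * u) * inv_pow' hu p + hu

lemma entry (hu : 2 * u = 1) (y : List R) (i : ℕ)
    (h : ∀ j (hj : j < y.length), y[j] = a u (i + 1 + j)) :
    M y 0 0 = D u i (i + y.length + 1) := by
  have h1 := walk hu y i h
  have h2 := congrFun (congrFun h1 0) 0
  have h3 := congrFun (congrFun h1 0) 1
  have h4 := D_succ hu i
  simp [V, Matrix.mul_apply, Fin.sum_univ_two] at h2 h3
  unfold D at *
  rw [← h2, ← h3]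
  linear_combination (-M y 0 0) * h4

lemma far (hu : 2 * u = 1) (m : ℕ) (h0 : (0 : R) ≠ 1)
    (h1 : ∀ d, 0 < d → d < m → ((-2 : R) ^ d) ^ 2 ≠ 1)
    (h2 : ∀ s t : R, s * t = 1 → (2 * (s - t)) ^ 2 ≠ 1) (i r : ℕ) (hr : 2 ≤ r)
    (hr' : r + 2 ≤ 3 * m) : D u i (i + r) ^ 2 ≠ 1 := by
  have h1' : ∀ d, 0 < d → d < m → ((-u : R) ^ d) ^ 2 ≠ 1 := fun d hd hd' h =>
    h1 d hd hd' (by
      linear_combination ((-2) ^ d * (-u) ^ d + 1) * inv_pow' hu d - ((-2) ^ d) ^ 2 * h)
  unfold D
  obtain ⟨p, rfl | rfl | rfl⟩ := three i <;> obtain ⟨d, rfl | rfl | rfl⟩ := three r <;>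
    have e := inv_pow' hu p
  · rw [← mul_add, v0, v0]
    simpa using h0
  · rw [← add_assoc, ← mul_add, v0, v1]
    convert h1' d (by omega) (by omega) using 2
    linear_combination (-u) ^ d * e
  · rw [← add_assoc, ← mul_add, v0, v2, ← neg_sq]
    convert h1' (d + 1) (by omega) (by omega) using 2
    linear_combination -u * (-u) ^ d * e
  · rw [show 3 * p + 1 + 3 * d = 3 * (p + d) + 1 by ring, v1, v1]
    convert h2 ((-u) ^ d) ((-2) ^ d) (by rw [mul_comm, inv_pow' hu]) using 2
    linear_combination 2 * ((-u) ^ d - (-2) ^ d) * e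
  · rw [show 3 * p + 1 + (3 * d + 1) = 3 * (p + d) + 2 by ring, v1, v2]
    convert h1' d (by omega) (by omega) using 2
    linear_combination 2 * u * (-u) ^ d * e + (-u) ^ d * hu
  · rw [show 3 * p + 1 + (3 * d + 2) = 3 * (p + (d + 1)) by ring, v1, v0, ← neg_sq]
    convert h1 (d + 1) (by omega) (by omega) using 2
    linear_combination (-2) ^ (d + 1) * e
  · rw [show 3 * p + 2 + 3 * d = 3 * (p + d) + 2 by ring, v2, v2]
    simpa using h0
  · rw [show 3 * p + 2 + (3 * d + 1) = 3 * (p + d + 1) by ring, v2, v0]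
    convert h1 d (by omega) (by omega) using 2
    linear_combination 2 * u * (-2) ^ d * e + (-2) ^ d * hu
  · rw [show 3 * p + 2 + (3 * d + 2) = 3 * (p + (d + 1)) + 1 by ring, v2, v1, ← neg_sq]
    convert h1 (d + 1) (by omega) (by omega) using 2
    linear_combination 2 * u * (-2) ^ (d + 1) * e + (-2) ^ (d + 1) * hu

lemma main (hu : 2 * u = 1) (m : ℕ) (h0 : (0 : R) ≠ 1)
    (h1 : ∀ d, 0 < d → d < m → ((-2 : R) ^ d) ^ 2 ≠ 1)
    (h2 : ∀ s t : R, s * t = 1 → (2 * (s - t)) ^ 2 ≠ 1) (h3 : (-2 : R) ^ m = -1) :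
    IsSol ((List.range (3 * m)).map (a u)) ∧ ¬ Reducible ((List.range (3 * m)).map (a u)) := by
  set l := (List.range (3 * m)).map (a u) with hl
  have hlen : l.length = 3 * m := by simp [hl]
  constructor
  · have h4 : (-u) ^ m = -1 := by linear_combination -inv_pow' hu m + (-u) ^ m * h3
    have h5 := walk hu l 2 fun j hj => by simp [hl, a]
    have h8 : V u 2 = !![-2, 0; 0, u] := by simp [V, v]
    have h6 : V u (2 + l.length) = -V u 2 := by
      rw [hlen, h8, V, show 2 + 3 * m + 1 = 3 * (m + 1) by ring, add_comm 2, v0, v2]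
      simp [pow_succ, h3, h4]
    have h7 : V u 2 * !![-u, 0; 0, 2] = 1 := by
      rw [h8]
      ext i j
      fin_cases i <;> fin_cases j <;> simp [Matrix.mul_apply, Fin.sum_univ_two, hu, mul_comm u]
    right
    rw [← mul_one (M l), ← h7, ← Matrix.mul_assoc, h5, h6, Matrix.neg_mul, h7]
  · rintro ⟨a₁, aₙ, b₁, bₘ, x, y, hx, hy, -, hs, h⟩
    have hrev : l.reverse = l := by
      apply List.ext_getElem (by simp)
      intro i hi _
      simp only [hl, List.getElem_reverse, List.getElem_map, List.getElem_range, a,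
        List.length_map, List.length_range]
      simp only [hl, List.length_reverse, List.length_map, List.length_range] at hi
      exact if_congr (by omega) rfl rfl
    rw [hrev, or_self] at h
    obtain ⟨t, ht⟩ := h
    have h4 : x.length + y.length + 2 = 3 * m := by
      have := congrArg List.length ht
      simp [hlen] at this
      omega
    have hx' := List.length_pos_iff.2 hx
    have hy' := List.length_pos_iff.2 hy
    have h5 := entry hu y (x.length + 1 + t) fun j hj => by
      have h6 : (l.rotate t)[x.length + 2 + j]? = y[j]? := by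
        rw [ht, show x.length + 2 + j = (x.length + 1 + j) + 1 by ring, List.cons_append,
          List.getElem?_cons_succ, List.getElem?_append_right (by omega),
          show x.length + 1 + j - x.length = j + 1 by omega, List.getElem?_cons_succ]
      rw [List.getElem?_rotate (by omega), List.getElem?_eq_getElem hj, hlen, hl,
        List.getElem?_map, List.getElem?_range (Nat.mod_lt _ (by omega))] at h6
      rw [← Option.some.inj h6]
      simp only [a]
      exact if_congr (by rw [Nat.mod_mul_right_mod]; omega) rfl rfl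
    refine far hu m h0 h1 h2 (x.length + 1 + t) (y.length + 1) (by omega) (by omega) ?_
    rw [← add_assoc, ← h5]
    rcases inner hs with h | h <;> simp [h]

theorem result (K : ℕ) : ∃ (N : ℕ) (l : List (ZMod N)), 2 ≤ N ∧ IsSol l ∧ 3 ≤ l.length ∧
    ¬ Reducible l ∧ N + K ≤ l.length := by
  have hK : K < 5 ^ K := Nat.lt_pow_self (by norm_num)
  have hord : orderOf (-4 : ZMod (5 ^ (K + 1))) = 5 ^ K := by
    have := ZMod.orderOf_one_add_mul_prime (p := 5) (by norm_num) (by norm_num) (-1)
      (by norm_num) K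
    norm_num at this
    exact this
  let π : ZMod (5 ^ (K + 1)) →+* ZMod 5 := ZMod.castHom (dvd_pow_self 5 (by omega)) _
  obtain ⟨u, hu⟩ : ∃ u : ZMod (5 ^ (K + 1)), 2 * u = 1 :=
    ((ZMod.isUnit_iff_coprime 2 _).2 (by simp; norm_num)).exists_right_inv
  have hodd : Odd (5 ^ K) := Odd.pow (by decide)
  obtain ⟨h1, h2⟩ := main hu (2 * 5 ^ K)
    (fun h => absurd (by simpa using congrArg π h : (0 : ZMod 5) = 1) (by decide))
    (fun d hd hd' h => by
      have e : (4 : ZMod (5 ^ (K + 1))) ^ d = 1 := by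
        rw [← h, ← pow_mul, mul_comm, pow_mul]
        norm_num
      have ev : Even d := by
        by_contra hn
        have := congrArg π e
        rw [map_pow, map_ofNat, map_one, show (4 : ZMod 5) = -1 by decide,
          (Nat.not_even_iff_odd.1 hn).neg_one_pow] at this
        exact absurd this (by decide)
      have h5 : 5 ^ K ∣ d := hord ▸ orderOf_dvd_of_pow_eq_one (by rw [ev.neg_pow, e])
      have := Nat.le_of_dvd hd (Nat.Coprime.mul_dvd_of_dvd_of_dvd (by simpa using hodd)
        ev.two_dvd h5)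
      omega)
    (fun s t hst h => by
      have e1 := congrArg π hst
      have e2 := congrArg π h
      simp only [map_mul, map_one, map_pow, map_sub, map_ofNat] at e1 e2
      revert e1 e2
      generalize π s = s'
      generalize π t = t'
      revert s' t'
      decide)
    (by
      have := pow_orderOf_eq_one (-4 : ZMod (5 ^ (K + 1)))
      rw [hord, hodd.neg_pow] at this
      rw [pow_mul]
      norm_num
      linear_combination -this)
  refine ⟨_, _, ?_, h1, ?_, h2, ?_⟩ <;>
    simp only [List.length_map, List.length_range, pow_succ] <;> omega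

end Pool.Agent.Results.MP_8835a9_co.Long
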